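import Pool.Agent.H21.TilfQ

set_option autoImplicit false

open MeasureTheory

namespace Pool.Agent.Results.MP_413515_an.PadicIntegers

/-- the complex `L²` space of `μ` -/
abbrev L2 {G : Type} [MeasurableSpace G] (μ : Measure G) : Type := Lp ℂ 2 μ

/-- `φ` is complex-linear -/
def IsLin {G : Type} [MeasurableSpace G] (μ : Measure G) (φ : L2 μ → ℂ) : Prop :=
  (∀ f g : L2 μ, φ (f + g) = φ f + φ g) ∧ ∀ (c : ℂ) (f : L2 μ), φ (c • f) = c * φ f

/-- `g` is the translate of `f` by `a`: `g(x) = f(x - a)` for almost all `x` -/
def IsTranslate {G : Type} [AddCommGroup G] [MeasurableSpace G] (μ : Measure G) (a : G)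
    (f g : L2 μ) : Prop :=
  (g : G → ℂ) =ᵐ[μ] fun x => (f : G → ℂ) (x - a)

/-- for the normalised Haar measure on the Borel sets of `G`, every translation-invariant linear
functional on `L²(G)` is continuous for the `L²` norm -/
def AutoCont (G : Type) [TopologicalSpace G] [AddCommGroup G] : Prop :=
  ∀ (_ : MeasurableSpace G) (_ : BorelSpace G) (μ : Measure G),
    μ.IsAddHaarMeasure → μ Set.univ = 1 →
      ∀ φ : L2 μ → ℂ, IsLin μ φ →
        (∀ (a : G) (f g : L2 μ), IsTranslate μ a f g → φ g = φ f) → Continuous φ

/-- an infinite, totally disconnected, compact Hausdorff abelian group which has a dense cyclic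
subgroup -/
def InfMonoProfinite (G : Type) [TopologicalSpace G] [AddCommGroup G] : Prop :=
  IsTopologicalAddGroup G ∧ CompactSpace G ∧ T2Space G ∧ TotallyDisconnectedSpace G ∧ Infinite G ∧
    ∃ g : G, Dense (Set.range fun n : ℤ => n • g)

/-- For every prime `p`, the group of `p`-adic integers is infinite, totally disconnected, compact and
monothetic, and all translation-invariant linear functionals on its `L²` space are continuous. -/
theorem result (p : ℕ) [Fact p.Prime] : InfMonoProfinite ℤ_[p] ∧ AutoCont ℤ_[p] := by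
  constructor
  · refine ⟨inferInstance, inferInstance, inferInstance, inferInstance,
      Infinite.of_injective (fun n : ℕ => (n : ℤ_[p])) Nat.cast_injective, 1, ?_⟩
    have h1 : DenseRange (fun n : ℕ => (n : ℤ_[p])) := PadicInt.denseRange_natCast
    refine h1.mono ?_
    rintro _ ⟨n, rfl⟩
    exact ⟨(n : ℤ), by simp⟩
  · intro _ _ μ hμ h1 φ hlin hφ
    have : IsProbabilityMeasure μ := ⟨h1⟩
    refine H21.Tilf.tilf μ { toFun := φ, map_add' := hlin.1, map_smul' := hlin.2 } ?_
    intro a f g h
    refine hφ (-a) f g ?_
    unfold IsTranslate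
    simpa only [sub_neg_eq_add] using h

end Pool.Agent.Results.MP_413515_an.PadicIntegers
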